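import Mathlib
import Pool.Agent.HN4C.E

set_option autoImplicit false
namespace Pool.Agent.Results.MP_4c8440_an.EveryDimension

/-- In every dimension `n ≥ 2` there are a smoothly bounded pseudoconvex domain `Ω = {ρ < 0}` in `ℂⁿ`
and a (nonempty) divisor `V` bounded away from the Shilov boundary such that every bounded holomorphic
function on `Ω` vanishing on `V` is identically zero. -/
theorem result (n : ℕ) (hn : 2 ≤ n) :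
    ∃ (Ω V : Set (Fin n → ℂ)) (ρ : (Fin n → ℂ) → ℝ),
      IsOpen Ω ∧ IsConnected Ω ∧ Bornology.IsBounded Ω ∧
      ContDiff ℝ ((⊤ : ℕ∞) : WithTop ℕ∞) ρ ∧
      Ω = {z | ρ z < 0} ∧
      (∀ z ∈ frontier Ω, fderiv ℝ ρ z ≠ 0) ∧
      (∀ z ∈ frontier Ω, ∀ w : Fin n → ℂ, fderiv ℝ ρ z w = 0 →
          fderiv ℝ ρ z (Complex.I • w) = 0 →
          0 ≤ iteratedFDeriv ℝ 2 ρ z ![w, w]
            + iteratedFDeriv ℝ 2 ρ z ![Complex.I • w, Complex.I • w]) ∧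
      V ⊆ Ω ∧ V.Nonempty ∧
      (∀ p ∈ Ω, ∃ r > 0, Metric.ball p r ⊆ Ω ∧
          ∃ g : (Fin n → ℂ) → ℂ, DifferentiableOn ℂ g (Metric.ball p r) ∧
            (∃ z ∈ Metric.ball p r, g z ≠ 0) ∧
            ∀ z ∈ Metric.ball p r, (z ∈ V ↔ g z = 0)) ∧
      Disjoint (closure V)
        (⋂₀ {K : Set (Fin n → ℂ) | IsClosed K ∧ K ⊆ closure Ω ∧
            ∀ f : (Fin n → ℂ) → ℂ, ContinuousOn f (closure Ω) → DifferentiableOn ℂ f Ω →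
              ∃ k ∈ K, ∀ z ∈ closure Ω, ‖f z‖ ≤ ‖f k‖}) ∧
      ∀ f : (Fin n → ℂ) → ℂ, DifferentiableOn ℂ f Ω → (∃ M : ℝ, ∀ z ∈ Ω, ‖f z‖ ≤ M) →
        (∀ v ∈ V, f v = 0) → ∀ z ∈ Ω, f z = 0 := by
  obtain ⟨k, rfl⟩ : ∃ k, n = k + 2 := ⟨n - 2, by omega⟩
  open Pool.Agent.HN4C in
  refine ⟨ΩN, VN, ρN, ΩNo, ΩNc, ΩNb, ρNc, rfl, gradN, leviN, fun _ h => h.1, ?_, VlocN,
    Set.disjoint_left.2 fun p hp h => (Set.sInter_subset_of_mem bdryN h).2 (VON hp),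
    fun f df ⟨M, hM⟩ hV => uniqN df hM hV⟩
  refine ⟨mk (1 / 2 : ℝ) (Complex.exp ((0 : ℝ) * Complex.I)) 0, circN 0 0 (by simp [SS]) ?_, ?_⟩
  · rw [Complex.norm_real]; norm_num
  · rw [mk0]
    exact Pool.Agent.H.MP_4c8440_an.Vm.2 ⟨0, by norm_num⟩

end Pool.Agent.Results.MP_4c8440_an.EveryDimension
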